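import Pool.Agent.Helper99.LK.CS
import Pool.Agent.Helper92.LV.Stmts

set_option autoImplicit false

open Filter Topology NumberField

namespace Pool.Agent.Helper92.LV

open Pool.Agent.Helper42.LS Pool.Agent.Helper42.LK

/-- two sided Lipschitz property -/
theorem cs2_lip (W s t : ℝ) (hW : 0 < W) (hs0 : 0 ≤ s) (hs : s ≤ W) (ht0 : 0 ≤ t) (ht : t ≤ W) :
    |t * (W - t) / W - s * (W - s) / W| ≤ |s - t| := by
  have h1 := CS_lip W s t hW hs0 hs ht0 ht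
  have h2 := CS_lip W t s hW ht0 ht hs0 hs
  rw [abs_sub_comm t s] at h2
  rw [abs_le]
  constructor <;> linarith

theorem st_CS2 (hCP2 : ST_CP2) (hCID : ST_CID) (hCFA : ST_CFA) (hCFD : ST_CFD) (hCP : ST_CP)
    (hFST : ST_FST) : ST_CS2 := by
  obtain ⟨CQ, hCQ0, hCQ⟩ := hCP2
  obtain ⟨CA, hCA⟩ := hCFA
  obtain ⟨CD, hCD⟩ := hCFD
  obtain ⟨CP, hCP⟩ := hCP
  obtain ⟨K, hK⟩ := hFST
  set C : ℝ := max (max CA CD) 0 with hCdef
  have hC0 : 0 ≤ C := le_max_right _ _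
  have hCAC : CA ≤ C := (le_max_left _ _).trans (le_max_left _ _)
  have hCDC : CD ≤ C := (le_max_right _ _).trans (le_max_left _ _)
  have hKC : 0 ≤ |K| * C := mul_nonneg (abs_nonneg K) hC0
  refine ⟨|CP| + CQ + C + |K| * C, by positivity, ?_⟩
  intro κ hκ hκ1 Z Y hZY
  obtain ⟨h1, h2⟩ := hCID κ hκ hκ1 Z Y hZY (fun k => (Y k / Z k) ^ 2) (fun k => rfl)
  set S : ℕ → ℂ := fun k => (Y k / Z k) ^ 2 with hS
  set W : ℝ := -Real.log ‖κ‖ with hWdef
  have hW : 0 < W := CS_W_pos κ hκ hκ1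
  have hA : ∀ k l : ℕ, 1 ≤ l → l < k →
      (|fk κ (S (k + l)) - abs (fk κ (S k) - fk κ (S l))| ≤ C ∧
        |fk κ (S (k - l)) - min (fk κ (S k) + fk κ (S l))
          (-Real.log ‖κ‖ - (fk κ (S k) + fk κ (S l)))| ≤ C) ∨
      (|fk κ (S (k - l)) - abs (fk κ (S k) - fk κ (S l))| ≤ C ∧
        |fk κ (S (k + l)) - min (fk κ (S k) + fk κ (S l))
          (-Real.log ‖κ‖ - (fk κ (S k) + fk κ (S l)))| ≤ C) := by
    intro k l hl hlk
    obtain ⟨g1, g2, g3⟩ := h2 k l hl hlk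
    rcases hCA κ (S k) (S l) (S (k + l)) (S (k - l)) hκ hκ1 g1 g2 g3 with ⟨g4, g5⟩ | ⟨g4, g5⟩
    · exact Or.inl ⟨g4.trans hCAC, g5.trans hCAC⟩
    · exact Or.inr ⟨g4.trans hCAC, g5.trans hCAC⟩
  have hD : ∀ k : ℕ, 1 ≤ k →
      |fk κ (S (2 * k)) - min (2 * fk κ (S k)) (-Real.log ‖κ‖ - 2 * fk κ (S k))| ≤ C := by
    intro k hk
    obtain ⟨_, g1, g2, g3, _, g5⟩ := h1 k hk
    exact (hCD κ (S k) (S (2 * k)) hκ hκ1 g1 g2 g3 g5).trans hCDC
  have hbd := CS_F_bd κ S hκ hκ1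
  obtain ⟨τ, hτ⟩ := hK W C hW hC0 (fun a : ℤ => CS_F κ S a.natAbs) (fun k => hbd k.natAbs)
    (by
      show CS_F κ S (0 : ℤ).natAbs = 0
      rw [Int.natAbs_zero]
      exact CS_F_zero κ S)
    (fun k => by
      show CS_F κ S (-k).natAbs = CS_F κ S k.natAbs
      rw [Int.natAbs_neg])
    (fun a b => CS_law_int W C (CS_F κ S)
      (fun m n hnm => CS_law_nat κ hκ hκ1 S C hC0 hA hD m n hnm) a b)
  have hτ' : ∀ k : ℕ, 1 ≤ k → |fk κ (S k) - W * nd (k * τ)| ≤ |K| * C := by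
    intro k hk
    have h3 := hτ k hk
    have h4 : |CS_F κ S ((k : ℤ)).natAbs - W * nd (k * τ)| ≤ K * C := h3
    rw [Int.natAbs_natCast, CS_F_pos κ S k hk] at h4
    exact h4.trans (mul_le_mul_of_nonneg_right (le_abs_self K) hC0)
  have hf0 : ∀ k : ℕ, 0 ≤ fk κ (S k) := fun k => CS_fk_nonneg _ _
  have hf1 : ∀ k : ℕ, fk κ (S k) ≤ W / 2 := fun k => CS_fk_le _ _ hκ hκ1
  refine ⟨fun k => Real.log (max ‖Z k‖ 1) - fk κ (S k) * (W - fk κ (S k)) / W, τ, ?_, ?_⟩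
  · intro k hk
    obtain ⟨gz, _, _, _, g4, _⟩ := h1 k hk
    have hYne : Y k ≠ 0 := hZY.yne k hk
    have hcurve : Y k ^ 2 = Z k ^ 3 - (2 + κ) * Z k ^ 2 + Z k := by
      rw [hZY.curve k hk]
      ring
    have hP := hCP κ (Z k) (Y k) hκ hκ1 gz hYne hcurve
    have hP' : 4 * Real.log (max ‖Z k‖ 1) - 2 * fk κ (S k) - CP ≤
        Real.log (max (‖Z k ^ 2 - 1‖ ^ 2) ‖4 * Y k ^ 2‖) := hP
    have hQ := hCQ κ (Z k) (Y k) hκ hκ1 gz hYne hcurve
    have hQ' : Real.log (max (‖Z k ^ 2 - 1‖ ^ 2) ‖4 * Y k ^ 2‖) ≤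
        4 * Real.log (max ‖Z k‖ 1) - 2 * fk κ (S k) + CQ := hQ
    have hY4 : 0 < ‖4 * Y k ^ 2‖ := by
      apply norm_pos_iff.mpr
      exact mul_ne_zero (by norm_num) (pow_ne_zero 2 hYne)
    have hlog : Real.log (max ‖Z (2 * k)‖ 1) + Real.log ‖4 * Y k ^ 2‖ =
        Real.log (max (‖Z k ^ 2 - 1‖ ^ 2) ‖4 * Y k ^ 2‖) := by
      rw [← Real.log_mul (lt_of_lt_of_le one_pos (le_max_right _ _)).ne' hY4.ne',
        max_mul_of_nonneg _ _ hY4.le, one_mul, ← norm_mul, g4, norm_pow]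
    have hD' := hD k hk
    set f := fk κ (S k) with hfdef
    set f2 := fk κ (S (2 * k)) with hf2def
    have hf0k : 0 ≤ f := hf0 k
    have hf1k : f ≤ W / 2 := hf1 k
    have hm0 : 0 ≤ min (2 * f) (W - 2 * f) := le_min (by linarith) (by linarith)
    have hm1 : min (2 * f) (W - 2 * f) ≤ W := (min_le_right _ _).trans (by linarith)
    have hl := cs2_lip W (min (2 * f) (W - 2 * f)) f2 hW hm0 hm1 (hf0 (2 * k))
      ((hf1 (2 * k)).trans (by linarith))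
    rw [CS_fold W f hW, abs_sub_comm (min (2 * f) (W - 2 * f)) f2] at hl
    have hD'' : |f2 - min (2 * f) (W - 2 * f)| ≤ C := hD'
    have hl2 := abs_le.1 (hl.trans hD'')
    have e1 : f * (W - f) / W = f - f ^ 2 / W := by
      field_simp
    have e2 : 4 * f ^ 2 / W = 4 * (f ^ 2 / W) := by ring
    have hCP' : CP ≤ |CP| := le_abs_self CP
    have hCP0 : 0 ≤ |CP| := abs_nonneg CP
    show |4 * (Real.log (max ‖Z k‖ 1) - f * (W - f) / W) -
      (Real.log (max ‖Z (2 * k)‖ 1) - f2 * (W - f2) / W) - Real.log ‖4 * Y k ^ 2‖| ≤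
        |CP| + CQ + C + |K| * C
    rw [e1]
    rw [e2] at hl2
    rw [abs_le]
    constructor <;> linarith [hl2.1, hl2.2]
  · intro k hk
    have h3 := hτ' k hk
    have hn0 : 0 ≤ nd (k * τ) := by
      unfold nd
      refine le_min (Int.fract_nonneg _) ?_
      linarith [Int.fract_lt_one ((k : ℝ) * τ)]
    have hn1 : nd (k * τ) ≤ 1 := by
      unfold nd
      exact (min_le_left _ _).trans (Int.fract_lt_one _).le
    have hg0 : 0 ≤ W * nd (k * τ) := mul_nonneg hW.le hn0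
    have hg1 : W * nd (k * τ) ≤ W := by
      have := mul_le_mul_of_nonneg_left hn1 hW.le
      linarith
    have hl := cs2_lip W (W * nd (k * τ)) (fk κ (S k)) hW hg0 hg1 (hf0 k)
      ((hf1 k).trans (by linarith))
    rw [abs_sub_comm (W * nd (k * τ)) (fk κ (S k))] at hl
    have e1 : W * nd (k * τ) * (W - W * nd (k * τ)) / W = W * (nd (k * τ) * (1 - nd (k * τ))) := by
      field_simp
    rw [e1] at hl
    have hl2 := abs_le.1 (hl.trans h3)
    have hCP0 : 0 ≤ |CP| := abs_nonneg CP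
    show |Real.log (max ‖Z k‖ 1) - fk κ (S k) * (W - fk κ (S k)) / W -
      Real.log (max ‖Z k‖ 1) - W * (B2 (k * τ) - 1 / 6)| ≤ |CP| + CQ + C + |K| * C
    rw [CS_B2]
    have e2 : W * -(nd (k * τ) * (1 - nd (k * τ))) = -(W * (nd (k * τ) * (1 - nd (k * τ)))) := by
      ring
    rw [e2, abs_le]
    constructor <;> linarith [hl2.1, hl2.2]

end Pool.Agent.Helper92.LV
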