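import Pool.Agent.Helper95.LK.KPM
import Pool.Agent.Helper92.LV.Stmts

set_option autoImplicit false

open Filter Topology NumberField

namespace Pool.Agent.Helper92.LV

open Pool.Agent.Helper42.LS Pool.Agent.Helper42.LK

theorem st_KPM2 (hPA : ST_KPA) (hPD : ST_KPD) (hPI : ST_PI) : ST_KPM2 := by
  intro F _ _ μ N hN A B hD hv x y hG
  have hNz : (1 : ℤ) ≤ N := by exact_mod_cast hN
  have hNR : (0 : ℝ) < N := by exact_mod_cast hN
  have hlogp : 0 < Real.log μ.q := μ.log_q_pos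
  have hA : A ≠ 0 := by
    intro h0
    rw [h0] at hv
    rw [show (6912 : F) * 0 ^ 3 / dsc 0 B = 0 by simp, μ.ord_zero] at hv
    omega
  obtain ⟨v2, hv2⟩ : ∃ v, kpdEq μ v (2 : F) := ⟨_, kpd_eq_self (by norm_num)⟩
  obtain ⟨v3, hv3⟩ : ∃ v, kpdEq μ v (3 : F) := ⟨_, kpd_eq_self (by norm_num)⟩
  obtain ⟨vA, hvA⟩ : ∃ v, kpdEq μ v A := ⟨_, kpd_eq_self hA⟩
  obtain ⟨vD, hvD⟩ : ∃ v, kpdEq μ v (dsc A B) := ⟨_, kpd_eq_self hD⟩
  have hv20 : 0 ≤ v2 := by
    rw [← hv2.2]
    exact μ.ord_ofNat 2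
  have hv30 : 0 ≤ v3 := by
    rw [← hv3.2]
    exact μ.ord_ofNat 3
  have h4 : kpdEq μ (2 * v2) (4 : F) := by
    have := kpd_eq_sq hv2
    norm_num at this
    exact this
  have h8 : kpdEq μ (3 * v2) (8 : F) := by
    have := kpd_eq_mul h4 hv2
    norm_num at this
    exact kpd_eq_cast this (by ring)
  have h9 : kpdEq μ (2 * v3) (9 : F) := by
    have := kpd_eq_sq hv3
    norm_num at this
    exact this
  have h27 : kpdEq μ (3 * v3) (27 : F) := by
    have := kpd_eq_mul h9 hv3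
    norm_num at this
    exact kpd_eq_cast this (by ring)
  have h16 : kpdEq μ (4 * v2) (16 : F) := by
    have := kpd_eq_mul h4 h4
    norm_num at this
    exact kpd_eq_cast this (by ring)
  have h18 : kpdEq μ (v2 + 2 * v3) (18 : F) := by
    have := kpd_eq_mul hv2 h9
    norm_num at this
    exact this
  have h6912 : kpdEq μ (8 * v2 + 3 * v3) (6912 : F) := by
    have := kpd_eq_mul (kpd_eq_mul h16 h16) h27
    norm_num at this
    exact kpd_eq_cast this (by ring)
  have hA2 : kpdEq μ (2 * vA) (A ^ 2) := kpd_eq_sq hvA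
  have hA3 : kpdEq μ (3 * vA) (A ^ 3) := by
    have := kpd_eq_mul hA2 hvA
    rw [show A ^ 2 * A = A ^ 3 by ring] at this
    exact kpd_eq_cast this (by ring)
  have hj : 8 * v2 + 3 * v3 + 3 * vA - vD = -(N : ℤ) := by
    rw [μ.ord_div (mul_ne_zero h6912.1 hA3.1) hD, hvD.2, (kpd_eq_mul h6912 hA3).2] at hv
    exact hv
  have h4A3 : kpdEq μ (2 * v2 + 3 * vA) (4 * A ^ 3) := kpd_eq_mul h4 hA3
  have h27B2 : kpdEq μ (2 * v2 + 3 * vA) (27 * B ^ 2) := by
    have h := kpd_eq_add (kpd_eq_neg h4A3) (kpd_ge_mono (kpd_ge_of_eq hvD) (by omega))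
    rw [show -(4 * A ^ 3) + dsc A B = 27 * B ^ 2 by unfold dsc; ring] at h
    exact h
  have hB : B ≠ 0 := by
    intro h0
    exact h27B2.1 (by rw [h0]; ring)
  obtain ⟨vB, hvB⟩ : ∃ v, kpdEq μ v B := ⟨_, kpd_eq_self hB⟩
  have hAB : 3 * v3 + 2 * vB = 2 * v2 + 3 * vA :=
    (kpd_eq_unique (kpd_eq_mul h27 (kpd_eq_sq hvB)) h27B2).symm
  -- the shift
  set x0 : F := -3 * B / (2 * A) with hx0
  set c0 : F := 3 * x0 with hc0
  set d0 : F := dsc A B / (4 * A ^ 2) with hd0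
  set e0 : F := -(B * dsc A B) / (8 * A ^ 3) with he0
  set r : ℤ := v2 + 2 * v3 + vB - vA with hr
  have hvx0 : kpdEq μ (v3 + vB - v2 - vA) x0 := by
    have h : kpdEq μ (v3 + vB) (x0 * (2 * A)) := by
      rw [hx0, show -3 * B / (2 * A) * (2 * A) = -(3 * B) by field_simp]
      exact kpd_eq_neg (kpd_eq_mul hv3 hvB)
    exact kpd_eq_cast (kpd_eq_of_mul h (kpd_eq_mul hv2 hvA)) (by ring)
  have hvc0 : kpdEq μ r (4 * c0) := by
    refine kpd_eq_cast (kpd_eq_mul h4 (kpd_eq_mul hv3 hvx0)) (by rw [hr]; ring)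
  have hvd0 : kpdEq μ (vD - 2 * v2 - 2 * vA) d0 := by
    have h : kpdEq μ vD (d0 * (4 * A ^ 2)) := by
      rw [hd0, div_mul_cancel₀ _ (mul_ne_zero (by norm_num) hA2.1)]
      exact hvD
    exact kpd_eq_cast (kpd_eq_of_mul h (kpd_eq_mul h4 hA2)) (by ring)
  have hve0 : kpdEq μ (vB + vD - 3 * v2 - 3 * vA) e0 := by
    have h : kpdEq μ (vB + vD) (e0 * (8 * A ^ 3)) := by
      rw [he0, div_mul_cancel₀ _ (mul_ne_zero (by norm_num) hA3.1)]
      exact kpd_eq_neg (kpd_eq_mul hvB hvD)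
    exact kpd_eq_cast (kpd_eq_of_mul h (kpd_eq_mul h8 hA3)) (by ring)
  have hshift : ∀ X : F, X ^ 3 + c0 * X ^ 2 + d0 * X + e0 = (X + x0) ^ 3 + A * (X + x0) + B := by
    intro X
    have h1 : d0 = 3 * x0 ^ 2 + A := by
      rw [hd0, hx0]
      unfold dsc
      field_simp
      ring
    have h2 : e0 = x0 ^ 3 + A * x0 + B := by
      rw [he0, hx0]
      unfold dsc
      field_simp
      ring
    rw [h1, h2, hc0]
    ring
  -- the scaling
  obtain ⟨ϖ, hp0, hϖ, -⟩ := μ.exists_unif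
  set π : F := ϖ ^ (-r) with hπ
  have hπ0 : π ≠ 0 := zpow_ne_zero _ hp0
  have hvπ : kpdEq μ (-r) π := by
    refine ⟨hπ0, ?_⟩
    rw [hπ, μ.ord_zpow, hϖ, mul_one]
  set c : F := c0 * π with hc
  set d : F := d0 * π ^ 2 with hd
  set e : F := e0 * π ^ 3 with he
  have hπ2 : kpdEq μ (2 * -r) (π ^ 2) := kpd_eq_sq hvπ
  have hπ3 : kpdEq μ (3 * -r) (π ^ 3) := by
    have := kpd_eq_mul hπ2 hvπ
    rw [show π ^ 2 * π = π ^ 3 by ring] at this
    exact kpd_eq_cast this (by ring)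
  have hcn : μ.nr (4 * c) = 1 := by
    have h := kpd_eq_mul hvc0 hvπ
    rw [show 4 * c0 * π = 4 * c by rw [hc]; ring] at h
    rw [kpd_nr_of_eq h]
    simp
  have hdn : μ.nr d ≤ μ.q ^ (-(N : ℤ)) := by
    rw [kpd_nr_le]
    exact kpd_ge_mono (kpd_ge_of_eq (kpd_eq_mul hvd0 hπ2)) (by rw [hr]; omega)
  have hen : μ.nr e = μ.q ^ (-(N : ℤ)) := by
    rw [kpd_nr_iff]
    exact kpd_eq_cast (kpd_eq_mul hve0 hπ3) (by rw [hr]; omega)
  set X : ℕ → F := fun k => (x k - x0) * π with hX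
  have hGX : ∀ k, 1 ≤ k → X k ^ 3 + c * X k ^ 2 + d * X k + e = cu A B (x k) * π ^ 3 := by
    intro k _
    have h := hshift (x k - x0)
    rw [sub_add_cancel] at h
    have h2 : X k ^ 3 + c * X k ^ 2 + d * X k + e =
        ((x k - x0) ^ 3 + c0 * (x k - x0) ^ 2 + d0 * (x k - x0) + e0) * π ^ 3 := by
      rw [hc, hd, he]
      simp only [hX]
      ring
    rw [h2, h]
    unfold cu
    ring
  have hcurve : ∀ k, 1 ≤ k → y k ^ 2 = cu A B (x k) := by
    intro k hk
    have := hG.curve k hk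
    rw [this]
    unfold cu
    ring
  have hcune : ∀ k, 1 ≤ k → cu A B (x k) ≠ 0 := by
    intro k hk
    rw [← hcurve k hk]
    exact pow_ne_zero 2 (hG.yne k hk)
  have hGne : ∀ k, 1 ≤ k → X k ^ 3 + c * X k ^ 2 + d * X k + e ≠ 0 := by
    intro k hk
    rw [hGX k hk]
    exact mul_ne_zero (hcune k hk) (pow_ne_zero 3 hπ0)
  have hcurve0 : ∀ k, 1 ≤ k → y k ^ 2 = (x k - x0) ^ 3 + c0 * (x k - x0) ^ 2 + d0 * (x k - x0) + e0 := by
    intro k hk
    rw [hshift (x k - x0), sub_add_cancel, hcurve k hk]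
    rfl
  have hSP : ∀ k l : ℕ, 1 ≤ l → l < k →
      X k ≠ X l ∧
      (X (k + l) + X (k - l)) * (X k - X l) ^ 2 =
        2 * ((X k + X l) * (d + X k * X l) + 2 * c * X k * X l + 2 * e) ∧
      X (k + l) * X (k - l) * (X k - X l) ^ 2 =
        (X k * X l - d) ^ 2 - 4 * e * (X k + X l + c) := by
    intro k l hl hlk
    have hne := hG.xne k l hl hlk
    have h := kpm_sp c0 d0 e0 (x k - x0) (x l - x0) (x (k + l) - x0) (x (k - l) - x0) (y k) (y l)
      (fun h => hne (sub_left_inj.1 h)) (hcurve0 k (by omega)) (hcurve0 l hl)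
      (by rw [hG.addx k l hl hlk, show x k - x0 - (x l - x0) = x k - x l by ring, hc0]; ring)
      (by rw [hG.subx k l hl hlk, show x k - x0 - (x l - x0) = x k - x l by ring, hc0]; ring)
    refine ⟨fun h => hne ?_, ?_, ?_⟩
    · exact sub_left_inj.1 (mul_right_cancel₀ hπ0 h)
    · have h2 : (X (k + l) + X (k - l)) * (X k - X l) ^ 2 =
          ((x (k + l) - x0 + (x (k - l) - x0)) * (x k - x0 - (x l - x0)) ^ 2) * π ^ 3 := by
        simp only [hX]
        ring
      rw [h2, h.1, hc, hd, he]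
      simp only [hX]
      ring
    · have h2 : X (k + l) * X (k - l) * (X k - X l) ^ 2 =
          ((x (k + l) - x0) * (x (k - l) - x0) * (x k - x0 - (x l - x0)) ^ 2) * π ^ 4 := by
        simp only [hX]
        ring
      rw [h2, h.2, hc, hd, he]
      simp only [hX]
      ring
  have hdbl : ∀ k, 1 ≤ k →
      X (2 * k) * (4 * (X k ^ 3 + c * X k ^ 2 + d * X k + e)) =
        (X k ^ 2 - d) ^ 2 - 4 * e * (2 * X k + c) := by
    intro k hk
    have hd1 : d0 = 3 * x0 ^ 2 + A := by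
      have h1 := hshift 1
      have h3 := hshift 0
      simp only [hc0] at h1 h3
      linear_combination h1 - h3
    have h := kpm_dbl c0 d0 e0 (x k - x0) (x (2 * k) - x0) (y k) (hG.yne k hk) (hcurve0 k hk)
      (by
        rw [hG.dblx k hk, show 3 * (x k - x0) ^ 2 + 2 * c0 * (x k - x0) + d0
          = 3 * x k ^ 2 + 2 * 0 * x k + A by rw [hd1, hc0]; ring, hc0]
        ring)
    have h2 : X (2 * k) * (4 * (X k ^ 3 + c * X k ^ 2 + d * X k + e)) =
        ((x (2 * k) - x0) * (4 * ((x k - x0) ^ 3 + c0 * (x k - x0) ^ 2 + d0 * (x k - x0) + e0))) *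
          π ^ 4 := by
      rw [hc, hd, he]
      simp only [hX]
      ring
    rw [h2, h, hc, hd, he]
    simp only [hX]
    ring
  have hPDk : ∀ k, 1 ≤ k → alpK μ N (X (2 * k)) = min (2 * alpK μ N (X k)) (N - 2 * alpK μ N (X k)) ∧
      4 * upK μ N (X k) = upK μ N (X (2 * k)) +
        Real.log (μ.nr (4 * (X k ^ 3 + c * X k ^ 2 + d * X k + e))) := fun k hk =>
    hPD F μ N hN c d e hcn hdn hen (X k) (X (2 * k)) (hGne k hk) (hdbl k hk)
  have hPAk : ∀ k l : ℕ, 1 ≤ l → l < k → (0 < alpK μ N (X k) ∨ 0 < alpK μ N (X l)) →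
      (alpK μ N (X (k + l)) = |alpK μ N (X k) - alpK μ N (X l)| ∧
        alpK μ N (X (k - l)) = min (alpK μ N (X k) + alpK μ N (X l))
          (N - (alpK μ N (X k) + alpK μ N (X l)))) ∨
      (alpK μ N (X (k - l)) = |alpK μ N (X k) - alpK μ N (X l)| ∧
        alpK μ N (X (k + l)) = min (alpK μ N (X k) + alpK μ N (X l))
          (N - (alpK μ N (X k) + alpK μ N (X l)))) := fun k l hl hlk h =>
    hPA F μ N hN c d e hcn hdn hen (X k) (X l) (X (k + l)) (X (k - l)) (hSP k l hl hlk).1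
      (hSP k l hl hlk).2.1 (hSP k l hl hlk).2.2 h
  have hb := fun k : ℕ => kpm_alp_bounds μ N (X k)
  have hnext : ∀ k : ℕ, 2 ≤ k → alpK μ N (X 1) = 0 → 0 < alpK μ N (X k) →
      alpK μ N (X (k - 1)) = alpK μ N (X k) ∧ alpK μ N (X (k + 1)) = alpK μ N (X k) := by
    intro k hk h1 h2
    have hbk := hb k
    have hmin : min (alpK μ N (X k)) (N - alpK μ N (X k)) = alpK μ N (X k) :=
      min_eq_left (by linarith [hbk.2])
    rcases hPAk k 1 le_rfl (by omega) (Or.inl h2) with ⟨h3, h4⟩ | ⟨h3, h4⟩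
    · rw [h1, sub_zero, abs_of_nonneg hbk.1] at h3
      rw [h1, add_zero, hmin] at h4
      exact ⟨h4, h3⟩
    · rw [h1, sub_zero, abs_of_nonneg hbk.1] at h3
      rw [h1, add_zero, hmin] at h4
      exact ⟨h3, h4⟩
  have hf : ∀ k : ℕ, 1 ≤ k → alpK μ N (X k) = N * nd (k * (alpK μ N (X 1) / N)) := by
    refine hPI N hN (fun k => alpK μ N (X k)) (fun k _ => hb k) ?_ ?_
    · have := (hPDk 1 le_rfl).1
      simpa using this
    · intro k hk
      by_cases hpos : 0 < alpK μ N (X k) ∨ 0 < alpK μ N (X 1)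
      · rcases hPAk k 1 le_rfl (by omega) hpos with ⟨h3, h4⟩ | ⟨h3, h4⟩
        · exact Or.inr ⟨h3, h4⟩
        · exact Or.inl ⟨h3, h4⟩
      · push Not at hpos
        have hk0 : alpK μ N (X k) = 0 := le_antisymm hpos.1 (hb k).1
        have h10 : alpK μ N (X 1) = 0 := le_antisymm hpos.2 (hb 1).1
        have hk1 : alpK μ N (X (k + 1)) = 0 := by
          by_contra hne
          have hlt : 0 < alpK μ N (X (k + 1)) := lt_of_le_of_ne (hb _).1 (Ne.symm hne)
          have := (hnext (k + 1) (by omega) h10 hlt).1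
          rw [Nat.add_sub_cancel, hk0] at this
          linarith
        have hk2 : alpK μ N (X (k - 1)) = 0 := by
          by_contra hne
          have hlt : 0 < alpK μ N (X (k - 1)) := lt_of_le_of_ne (hb _).1 (Ne.symm hne)
          rcases Nat.lt_or_ge (k - 1) 2 with h | h
          · have : k - 1 = 1 := by omega
            rw [this] at hne
            exact hne h10
          · have := (hnext (k - 1) h h10 hlt).2
            rw [Nat.sub_add_cancel (by omega), hk0] at this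
            linarith
        left
        rw [hk0, h10, hk1, hk2]
        refine ⟨by simp, ?_⟩
        rw [add_zero, min_eq_left (by linarith)]
  obtain ⟨a, ha⟩ := kpm_alp_int μ N (X 1)
  refine ⟨r, a, π, fun k => upK μ N (X k) - r * Real.log μ.q, hπ0, hvπ.2, ?_, ?_, ?_, ?_⟩
  · rw [(kpd_eq_mul h16 hvD).2, hr]
    omega
  · intro k hk
    have hfk := hf k hk
    have hND : alpK μ N (X k) * (N - alpK μ N (X k)) / N =
        N * (1 / 6 - B2 (k * (a / (2 * N)))) := by
      have ht : (k : ℝ) * (alpK μ N (X 1) / N) = k * (a / (2 * N)) := by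
        rw [← ha]
        field_simp
      rw [ht] at hfk
      rw [hfk, ← kpm_nd_b2]
      field_simp
    have hXk : (x k - x0) * π = X k := rfl
    rw [hXk]
    simp only
    unfold upK
    rw [hND]
    ring
  · intro k hk
    have h := (hPDk k hk).2
    rw [hGX k hk] at h
    have h4cu : 4 * cu A B (x k) ≠ 0 := mul_ne_zero (by norm_num) (hcune k hk)
    obtain ⟨g, hg⟩ : ∃ g, kpdEq μ g (4 * cu A B (x k)) := ⟨_, kpd_eq_self h4cu⟩
    have hg2 := kpd_eq_mul hg hπ3
    rw [show 4 * cu A B (x k) * π ^ 3 = 4 * (cu A B (x k) * π ^ 3) by ring] at hg2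
    rw [kpd_log_nr hg2] at h
    rw [kpd_log_nr hg]
    push_cast at h
    simp only
    linarith
  · intro h52 h53 hA1 k hk hxk
    have hz2 : v2 = 0 := by rw [← hv2.2]; exact h52
    have hz3 : v3 = 0 := by rw [← hv3.2]; exact h53
    have hvA1 : 1 ≤ vA := by
      by_contra hcon
      have h1 : (1 : ℝ) ≤ μ.nr A := by
        rw [kpd_nr_of_eq hvA]
        exact one_le_zpow₀ μ.one_lt_q.le (by omega)
      linarith
    have hr1 : 1 ≤ r := by rw [hr]; omega
    have hx0ne : x k ≠ 0 := by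
      intro h0
      rw [h0, μ.nr_zero] at hxk
      linarith
    obtain ⟨w, hw⟩ : ∃ w, kpdEq μ w (x k) := ⟨_, kpd_eq_self hx0ne⟩
    have hw0 : w ≤ 0 := by
      by_contra hcon
      rw [kpd_nr_of_eq hw] at hxk
      have : μ.q ^ (-w) < 1 := zpow_lt_one_of_neg₀ μ.one_lt_q (by omega)
      linarith
    have hXv : kpdEq μ (w + -r) (X k) :=
      kpd_eq_mul (kpd_eq_sub hw (kpd_ge_mono (kpd_ge_of_eq hvx0) (by omega))) hvπ
    have halp : alpK μ N (X k) = 0 := kpd_alp_nonpos hXv (by omega)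
    simp only
    unfold upK
    rw [halp, kpd_logmax_neg hXv (by omega), kpd_log_nr hw]
    push_cast
    ring

end Pool.Agent.Helper92.LV
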